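import Pool.Agent.W2helper66.CP.Base

/-!
# Project CP, piece CLA: the inner product
-/

set_option autoImplicit false

open Set Filter Topology MeasureTheory
open scoped ContDiff

noncomputable section

namespace Pool.Agent.W2helper44.CP

theorem H66.inner_eq_of_sq {ι : Type} [Fintype ι] (a b : Eu ι) :
    inner ℝ a b = (‖a‖ ^ 2 + ‖b‖ ^ 2 - ‖a - b‖ ^ 2) / 2 := by
  rw [norm_sub_sq_real]
  ring

theorem p_CLA : P_CLA := by
  intro hGEO hMOL ι _ M ρ K hM hK b hb
  obtain ⟨η, L, hη, hL, g1, g2, g3, g4, g5, g6, g7⟩ := hGEO ι M ρ hM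
  have hLb : 1 ≤ L * (b + 1) := by nlinarith
  refine ⟨L * (b + 1), hLb, ?_⟩
  intro R₁ hR₁
  have hR1 : 1 ≤ R₁ := hLb.trans hR₁
  have hCK := H66.CK_nonneg K
  set B : ℝ := 3 * (L * (b + 1)) ^ 2 with hB
  have hB0 : 0 < B := by positivity
  refine ⟨min (η / (b + 1)) (1 / (8 * (L * (b + 1)))),
    H66.CK K * (3 / 2 * R₁ ^ 2 + B) + L * b, by positivity, ?_, ?_⟩
  · have : 0 ≤ H66.CK K * (3 / 2 * R₁ ^ 2 + B) := by positivity
    have h2 : 1 ≤ L * b := one_le_mul_of_one_le_of_one_le hL hb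
    linarith only [this, h2]
  intro F hF hFM r hr hrt x hx y hy hxy0 hxy l δ hδ0 hflat s hs0 hs1 p hp
  set w := y - x with hw
  set z := x + s • w with hz
  have hrη : (b + 1) * r ≤ η := by
    have := hrt.trans (min_le_left _ _)
    rw [le_div_iff₀ (by positivity)] at this
    linarith
  have hr8 : L * (b + 1) * r ≤ 1 / 8 := by
    have := hrt.trans (min_le_right _ _)
    rw [le_div_iff₀ (by positivity)] at this
    linarith only [this]
  obtain ⟨hl, hflat2⟩ := hflat
  set T := fderiv ℝ ρ x with hT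
  set e : Eu ι := (1 / ‖w‖) • w with he
  have hen : ‖e‖ = 1 := by
    rw [he, norm_smul, Real.norm_eq_abs, abs_of_pos (by positivity), one_div,
      inv_mul_cancel₀ hxy0.ne']
  have hwe : w = ‖w‖ • e := by
    rw [he, smul_smul, mul_one_div, div_self hxy0.ne', one_smul]
  have hre : (r / ‖w‖) • w = r • e := by
    rw [he, smul_smul]
    congr 1
    ring
  rw [hre] at hp
  have hxη : ‖x - x‖ ≤ η := by simp [hη.le]
  have hrη' : r ≤ η := (le_mul_of_one_le_left hr.le (by linarith only [hb])).trans hrη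
  have hpe : ‖x + r • e - x‖ = r := by
    rw [add_sub_cancel_left, norm_smul, hen, mul_one, Real.norm_eq_abs, abs_of_pos hr]
  have hpM : p ∈ M := by
    rw [hp]
    exact g1 x hx _ (by rw [hpe]; exact hrη')
  -- the derivative of `ρ` at `x` in the direction `w`
  have hyη : ‖y - x‖ ≤ η := by
    have : b * r ≤ (b + 1) * r := by linarith only [hr]
    exact hxy.trans (this.trans hrη)
  have hTw : ‖w - T w‖ ≤ L * ‖w‖ ^ 2 := g5 x hx y hy hyη
  have hTe : ‖e - T e‖ ≤ L * b * r := by
    have h1 : e - T e = (1 / ‖w‖) • (w - T w) := by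
      rw [he, map_smul, ← smul_sub]
    rw [h1, norm_smul, Real.norm_eq_abs, abs_of_pos (by positivity)]
    calc 1 / ‖w‖ * ‖w - T w‖ ≤ 1 / ‖w‖ * (L * ‖w‖ ^ 2) := by gcongr
      _ = L * ‖w‖ := by field_simp
      _ ≤ L * (b * r) := by gcongr
      _ = L * b * r := by ring
  have hpre : ‖p - x - r • e‖ ≤ L * (b + 1) * r ^ 2 := by
    have h1 := g4 x hx (x + r • e) (by rw [hpe]; exact hrη')
    rw [hpe, add_sub_cancel_left, map_smul, ← hp] at h1
    calc ‖p - x - r • e‖ = ‖(p - x - r • T e) - r • (e - T e)‖ := by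
          congr 1
          rw [smul_sub]
          abel
      _ ≤ ‖p - x - r • T e‖ + ‖r • (e - T e)‖ := norm_sub_le _ _
      _ ≤ L * r ^ 2 + r * (L * b * r) := by
          rw [norm_smul, Real.norm_eq_abs, abs_of_pos hr]
          gcongr
      _ = L * (b + 1) * r ^ 2 := by ring
  have hpre2 : ‖p - x - r • e‖ ≤ 1 / 8 * r := by
    calc ‖p - x - r • e‖ ≤ L * (b + 1) * r ^ 2 := hpre
      _ = (L * (b + 1) * r) * r := by ring
      _ ≤ 1 / 8 * r := by gcongr
  have hren : ‖r • e‖ = r := by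
    rw [norm_smul, hen, mul_one, Real.norm_eq_abs, abs_of_pos hr]
  have hp1 : 7 / 8 * r ≤ ‖p - x‖ := by
    have h1 : ‖r • e‖ ≤ ‖p - x‖ + ‖p - x - r • e‖ := by
      calc ‖r • e‖ = ‖(p - x) - (p - x - r • e)‖ := by congr 1; abel
        _ ≤ _ := norm_sub_le _ _
    rw [hren] at h1
    linarith
  have hp2 : ‖p - x‖ ≤ 9 / 8 * r := by
    have h1 : ‖p - x‖ ≤ ‖r • e‖ + ‖p - x - r • e‖ := by
      calc ‖p - x‖ = ‖r • e + (p - x - r • e)‖ := by congr 1; abel
        _ ≤ _ := norm_add_le _ _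
    rw [hren] at h1
    linarith
  refine ⟨hpM, hp1, hp2, ?_⟩
  -- the points `q`
  have hq : ∀ v : Eu ι, ‖v‖ ≤ 1 → ‖s • w + r • v‖ ≤ (b + 1) * r := by
    intro v hv
    calc ‖s • w + r • v‖ ≤ ‖s • w‖ + ‖r • v‖ := norm_add_le _ _
      _ ≤ b * r + r := by
          rw [norm_smul, norm_smul, Real.norm_eq_abs, Real.norm_eq_abs, abs_of_nonneg hs0,
            abs_of_pos hr]
          have h1 : s * ‖w‖ ≤ 1 * (b * r) := mul_le_mul hs1 hxy (norm_nonneg _) (by norm_num)
          have h2 : r * ‖v‖ ≤ r * 1 := mul_le_mul_of_nonneg_left hv hr.le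
          linarith
      _ = (b + 1) * r := by ring
  have hzx : ∀ v : Eu ι, z + r • v - x = s • w + r • v := by
    intro v
    rw [hz]
    abel
  have hq' : ∀ v : Eu ι, ‖v‖ ≤ 1 → ‖z + r • v - x‖ ≤ (b + 1) * r := by
    intro v hv
    rw [hzx]
    exact hq v hv
  have hqM : ∀ v : Eu ι, ‖v‖ ≤ 1 → ρ (z + r • v) ∈ M := fun v hv =>
    g1 x hx _ ((hq' v hv).trans hrη)
  have hqx : ∀ v : Eu ι, ‖v‖ ≤ 1 → ‖ρ (z + r • v) - x‖ ≤ L * (b + 1) * r := by
    intro v hv
    have h1 := (g2 x hx (z + r • v) x ((hq' v hv).trans hrη) hxη).1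
    rw [hM.id x hx] at h1
    calc ‖ρ (z + r • v) - x‖ ≤ L * ‖z + r • v - x‖ := h1
      _ ≤ L * ((b + 1) * r) := by
          apply mul_le_mul_of_nonneg_left (hq' v hv)
          linarith
      _ = L * (b + 1) * r := by ring
  have hqT : ∀ v : Eu ι, ‖v‖ ≤ 1 →
      ‖ρ (z + r • v) - x - T (s • w + r • v)‖ ≤ L * ((b + 1) * r) ^ 2 := by
    intro v hv
    have h1 := g4 x hx (z + r • v) ((hq' v hv).trans hrη)
    rw [hzx] at h1
    refine h1.trans ?_
    have := hq v hv
    gcongr
  have hTn : ‖T‖ ≤ L := g3 x hx x hxη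
  set f := F p - F x with hf
  -- the main pointwise bound
  have hmain : ∀ v : Eu ι, ‖v‖ ≤ 1 →
      |inner ℝ (F (ρ (z + r • v)) - F x) f - l * inner ℝ (T (s • w + r • v)) (r • e)| ≤
        l * r ^ 2 * (3 / 2 * R₁ ^ 2 * δ + B * r) := by
    intro v hv
    have hR0 : L * (b + 1) * r ≤ R₁ * r := by gcongr
    have hqR : ‖ρ (z + r • v) - x‖ ≤ R₁ * r := (hqx v hv).trans hR0
    have hpR : ‖p - x‖ ≤ R₁ * r := by
      have h1 := (g2 x hx (x + r • e) x (by rw [hpe]; exact hrη') hxη).1
      rw [hM.id x hx, ← hp, hpe] at h1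
      have hLbr : 0 ≤ L * b * r := by positivity
      have : L * r ≤ L * (b + 1) * r := by linarith only [hLbr]
      exact h1.trans (this.trans hR0)
    have hxR : ‖x - x‖ ≤ R₁ * r := by simp; positivity
    have c1 := abs_le.1 (hflat2 _ (hqM v hv) x hx hqR hxR)
    have c2 := abs_le.1 (hflat2 p hpM x hx hpR hxR)
    have c3 := abs_le.1 (hflat2 _ (hqM v hv) p hpM hqR hpR)
    set q := ρ (z + r • v) with hqd
    have e1 : inner ℝ (F q - F x) f =
        (‖F q - F x‖ ^ 2 + ‖F p - F x‖ ^ 2 - ‖F q - F p‖ ^ 2) / 2 := by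
      rw [H66.inner_eq_of_sq, hf]
      congr 3
      congr 1
      abel_nf
    have e2 : inner ℝ (q - x) (p - x) =
        (‖q - x‖ ^ 2 + ‖p - x‖ ^ 2 - ‖q - p‖ ^ 2) / 2 := by
      rw [H66.inner_eq_of_sq]
      congr 3
      congr 1
      abel_nf
    have e3 : |inner ℝ (F q - F x) f - l * inner ℝ (q - x) (p - x)| ≤
        3 / 2 * (δ * l * (R₁ * r) ^ 2) := by
      rw [e1, e2, abs_le]
      constructor
      · linarith only [c1.1, c2.1, c3.2]
      · linarith only [c1.2, c2.2, c3.1]
    have e4 : |inner ℝ (q - x) (p - x) - inner ℝ (T (s • w + r • v)) (r • e)| ≤ B * r ^ 3 := by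
      have h1 : inner ℝ (q - x) (p - x) - inner ℝ (T (s • w + r • v)) (r • e) =
          inner ℝ (q - x - T (s • w + r • v)) (p - x) +
            inner ℝ (T (s • w + r • v)) (p - x - r • e) := by
        have i1 := inner_sub_left (𝕜 := ℝ) (q - x) (T (s • w + r • v)) (p - x)
        have i2 := inner_sub_right (𝕜 := ℝ) (T (s • w + r • v)) (p - x) (r • e)
        linarith
      rw [h1]
      have h2 : |inner ℝ (q - x - T (s • w + r • v)) (p - x)| ≤
          (L * ((b + 1) * r) ^ 2) * (9 / 8 * r) :=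
        (abs_real_inner_le_norm _ _).trans
          (mul_le_mul (hqT v hv) hp2 (norm_nonneg _) (by positivity))
      have h3 : |inner ℝ (T (s • w + r • v)) (p - x - r • e)| ≤
          (L * ((b + 1) * r)) * (L * (b + 1) * r ^ 2) := by
        refine (abs_real_inner_le_norm _ _).trans
          (mul_le_mul ?_ hpre (norm_nonneg _) (by positivity))
        exact (ContinuousLinearMap.le_opNorm _ _).trans
          (mul_le_mul hTn (hq v hv) (norm_nonneg _) (by linarith))
      have h4 : L * (b + 1) ^ 2 ≤ (L * (b + 1)) ^ 2 := by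
        rw [mul_pow]
        exact mul_le_mul_of_nonneg_right (le_self_pow₀ hL two_ne_zero) (sq_nonneg _)
      calc |inner ℝ (q - x - T (s • w + r • v)) (p - x) +
            inner ℝ (T (s • w + r • v)) (p - x - r • e)|
          ≤ (L * ((b + 1) * r) ^ 2) * (9 / 8 * r) +
              (L * ((b + 1) * r)) * (L * (b + 1) * r ^ 2) :=
            (abs_add_le _ _).trans (add_le_add h2 h3)
        _ = (9 / 8 * (L * (b + 1) ^ 2) + (L * (b + 1)) ^ 2) * r ^ 3 := by ring
        _ ≤ B * r ^ 3 := by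
            apply mul_le_mul_of_nonneg_right _ (by positivity)
            rw [hB]
            linarith only [h4, sq_nonneg (L * (b + 1))]
    have e5 : inner ℝ (F q - F x) f - l * inner ℝ (T (s • w + r • v)) (r • e) =
        (inner ℝ (F q - F x) f - l * inner ℝ (q - x) (p - x)) +
          l * (inner ℝ (q - x) (p - x) - inner ℝ (T (s • w + r • v)) (r • e)) := by ring
    rw [e5]
    calc |(inner ℝ (F q - F x) f - l * inner ℝ (q - x) (p - x)) +
          l * (inner ℝ (q - x) (p - x) - inner ℝ (T (s • w + r • v)) (r • e))|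
        ≤ 3 / 2 * (δ * l * (R₁ * r) ^ 2) + l * (B * r ^ 3) := by
          refine (abs_add_le _ _).trans (add_le_add e3 ?_)
          rw [abs_mul, abs_of_pos hl]
          exact mul_le_mul_of_nonneg_left e4 hl.le
      _ = l * r ^ 2 * (3 / 2 * R₁ ^ 2 * δ + B * r) := by ring
  have hFρ : ContDiff ℝ ∞ (fun y => F (ρ y)) := hF.comp hM.smooth
  have hcont : Continuous (fun v : Eu ι => F (ρ (z + r • v))) :=
    hFρ.continuous.comp (continuous_const.add (continuous_id.const_smul r))
  have hu := (hMOL ι K (fun y => F (ρ y)) hK hFρ).2 r hr z w (F x)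
  change Dmol ρ K F r z w = _ at hu
  have hTu := (hMOL ι K T hK T.contDiff).2 r hr z w (T x)
  rw [H66.mol_linear hK T r z w] at hTu
  have hTu2 : T w = -(1 / r) • ∫ v, (fderiv ℝ K v w) • T (s • w + r • v) := by
    rw [hTu]
    congr 1
    apply integral_congr_ae
    refine Filter.Eventually.of_forall (fun v => ?_)
    simp only
    rw [← map_sub, hzx]
  -- the scalar identity
  have hint1 : Integrable (fun v => (fderiv ℝ K v w) • (F (ρ (z + r • v)) - F x)) :=
    H66.int_fdw hK w _ (hcont.sub continuous_const)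
  have hcontT : Continuous (fun v : Eu ι => T (s • w + r • v)) :=
    T.continuous.comp (continuous_const.add (continuous_id.const_smul r))
  have hint2 : Integrable (fun v => (fderiv ℝ K v w) • T (s • w + r • v)) :=
    H66.int_fdw hK w _ hcontT
  have hinner1 : inner ℝ (∫ v, (fderiv ℝ K v w) • (F (ρ (z + r • v)) - F x)) f =
      ∫ v, (fderiv ℝ K v w) • inner ℝ (F (ρ (z + r • v)) - F x) f := by
    rw [real_inner_comm, ← integral_inner hint1]
    apply integral_congr_ae
    refine Filter.Eventually.of_forall (fun v => ?_)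
    simp only
    rw [real_inner_smul_right, real_inner_comm, smul_eq_mul]
  have hinner2 : inner ℝ (∫ v, (fderiv ℝ K v w) • T (s • w + r • v)) (r • e) =
      ∫ v, (fderiv ℝ K v w) • inner ℝ (T (s • w + r • v)) (r • e) := by
    rw [real_inner_comm, ← integral_inner hint2]
    apply integral_congr_ae
    refine Filter.Eventually.of_forall (fun v => ?_)
    simp only
    rw [real_inner_smul_right, real_inner_comm, smul_eq_mul]
  have hid : inner ℝ (Dmol ρ K F r z w) f - l * inner ℝ (T w) (r • e) =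
      -(1 / r) * ∫ v, (fderiv ℝ K v w) • (inner ℝ (F (ρ (z + r • v)) - F x) f -
        l * inner ℝ (T (s • w + r • v)) (r • e)) := by
    have hi1 : Integrable (fun v => (fderiv ℝ K v w) • inner ℝ (F (ρ (z + r • v)) - F x) f) :=
      H66.int_fdw hK w _ ((hcont.sub continuous_const).inner continuous_const)
    have hi2 : Integrable (fun v => (fderiv ℝ K v w) •
        (l * inner ℝ (T (s • w + r • v)) (r • e))) :=
      H66.int_fdw hK w _ (continuous_const.mul (hcontT.inner continuous_const))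
    have h1 : ∫ v, (fderiv ℝ K v w) • (inner ℝ (F (ρ (z + r • v)) - F x) f -
        l * inner ℝ (T (s • w + r • v)) (r • e)) =
        (∫ v, (fderiv ℝ K v w) • inner ℝ (F (ρ (z + r • v)) - F x) f) -
        ∫ v, (fderiv ℝ K v w) • (l * inner ℝ (T (s • w + r • v)) (r • e)) := by
      rw [← integral_sub hi1 hi2]
      apply integral_congr_ae
      refine Filter.Eventually.of_forall (fun v => ?_)
      simp only [smul_sub]
    have h2 : ∫ v, (fderiv ℝ K v w) • (l * inner ℝ (T (s • w + r • v)) (r • e)) =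
        l * ∫ v, (fderiv ℝ K v w) • inner ℝ (T (s • w + r • v)) (r • e) := by
      rw [← integral_const_mul]
      apply integral_congr_ae
      refine Filter.Eventually.of_forall (fun v => ?_)
      simp only [smul_eq_mul]
      ring
    rw [h1, h2, ← hinner1, ← hinner2, hu]
    conv_lhs => rw [hTu2]
    rw [real_inner_smul_left, real_inner_smul_left]
    ring
  have hbound : |inner ℝ (Dmol ρ K F r z w) f - l * inner ℝ (T w) (r • e)| ≤
      H66.CK K * ‖w‖ * (l * r * (3 / 2 * R₁ ^ 2 * δ + B * r)) := by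
    rw [hid]
    have h1 := H66.norm_int_le hK w (fun v => (inner ℝ (F (ρ (z + r • v)) - F x) f -
      l * inner ℝ (T (s • w + r • v)) (r • e) : ℝ)) (l * r ^ 2 * (3 / 2 * R₁ ^ 2 * δ + B * r))
      (by positivity) (by
        intro v hv
        rw [Real.norm_eq_abs]
        exact hmain v hv)
    rw [Real.norm_eq_abs] at h1
    rw [abs_mul, abs_neg, abs_of_pos (by positivity : (0:ℝ) < 1 / r)]
    calc 1 / r * |∫ v, (fderiv ℝ K v w) • (inner ℝ (F (ρ (z + r • v)) - F x) f -
          l * inner ℝ (T (s • w + r • v)) (r • e))|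
        ≤ 1 / r * (H66.CK K * ‖w‖ * (l * r ^ 2 * (3 / 2 * R₁ ^ 2 * δ + B * r))) := by
          apply mul_le_mul_of_nonneg_left h1 (by positivity)
      _ = H66.CK K * ‖w‖ * (l * r * (3 / 2 * R₁ ^ 2 * δ + B * r)) := by
          field_simp
  have hTwe : |l * inner ℝ (T w) (r • e) - l * r * ‖w‖| ≤ l * r * (L * b * r * ‖w‖) := by
    have h1 : l * inner ℝ (T w) (r • e) - l * r * ‖w‖ = -(l * r * inner ℝ (w - T w) e) := by
      rw [real_inner_smul_right, inner_sub_left]
      have h2 : inner ℝ w e = ‖w‖ := by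
        conv_lhs => rw [hwe]
        rw [real_inner_smul_left, real_inner_self_eq_norm_sq, hen]
        ring
      rw [h2]
      ring
    rw [h1, abs_neg, abs_mul, abs_of_pos (by positivity : (0:ℝ) < l * r)]
    apply mul_le_mul_of_nonneg_left _ (by positivity)
    calc |inner ℝ (w - T w) e| ≤ ‖w - T w‖ * ‖e‖ := abs_real_inner_le_norm _ _
      _ ≤ (L * ‖w‖ ^ 2) * 1 := by rw [hen]; gcongr
      _ = L * ‖w‖ * ‖w‖ := by ring
      _ ≤ L * (b * r) * ‖w‖ := by gcongr
      _ = L * b * r * ‖w‖ := by ring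
  calc |inner ℝ (Dmol ρ K F r z w) f - l * r * ‖w‖|
      = |(inner ℝ (Dmol ρ K F r z w) f - l * inner ℝ (T w) (r • e)) +
          (l * inner ℝ (T w) (r • e) - l * r * ‖w‖)| := by congr 1; ring
    _ ≤ H66.CK K * ‖w‖ * (l * r * (3 / 2 * R₁ ^ 2 * δ + B * r)) + l * r * (L * b * r * ‖w‖) :=
        (abs_add_le _ _).trans (add_le_add hbound hTwe)
    _ ≤ H66.CK K * ‖w‖ * (l * r * ((3 / 2 * R₁ ^ 2 + B) * (r + δ))) +
          l * r * (L * b * (r + δ) * ‖w‖) := by
        apply add_le_add
        · apply mul_le_mul_of_nonneg_left _ (by positivity)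
          apply mul_le_mul_of_nonneg_left _ (by positivity)
          linarith only [mul_nonneg hB0.le hδ0, mul_nonneg (sq_nonneg R₁) hr.le]
        · apply mul_le_mul_of_nonneg_left _ (by positivity)
          gcongr
          linarith
    _ = (H66.CK K * (3 / 2 * R₁ ^ 2 + B) + L * b) * (r + δ) * l * r * ‖w‖ := by ring

end Pool.Agent.W2helper44.CP
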