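import Pool.Agent.W2helper66.CP.Base

/-!
# Project CP, piece CLB: norm estimates
-/

set_option autoImplicit false

open Set Filter Topology MeasureTheory
open scoped ContDiff

noncomputable section

namespace Pool.Agent.W2helper44.CP

theorem p_CLB : P_CLB := by
  intro hGEO hMOL ι _ M ρ K hM hK b hb
  obtain ⟨η, L, hη, hL, g1, g2, g3, g4, g5, g6, g7⟩ := hGEO ι M ρ hM
  have hLb : 1 ≤ L * (b + 1) := by nlinarith
  refine ⟨L * (b + 1), hLb, ?_⟩
  intro R₁ hR₁
  have hR1 : 1 ≤ R₁ := hLb.trans hR₁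
  have hCK := H66.CK_nonneg K
  set D : ℝ := 2 + L * (b + 1) with hD
  have hD0 : 0 < D := by positivity
  refine ⟨η / (D + (b + 1)), 4 * H66.CK K * R₁ * L * D + 1, by positivity, ?_, ?_⟩
  · have : 0 ≤ 4 * H66.CK K * R₁ * L * D := by positivity
    linarith
  intro F hF hFM t ht htt hFx r hr hrt x hx y hy hxy l δ hδ0 hδ1 hflat s hs0 hs1
  set w := y - x with hw
  set z := x + s • w with hz
  have ht2 : (D + (b + 1)) * t ≤ η := by
    rw [le_div_iff₀ (by positivity)] at htt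
    linarith
  have hbt : 0 < (b + 1) * t := by positivity
  have hDt : 0 < D * t := by positivity
  have hDη : D * t ≤ η := by nlinarith
  have hbη : (b + 1) * r ≤ η := by nlinarith
  obtain ⟨hl, hflat2⟩ := hflat
  have hsl : 0 ≤ √l := Real.sqrt_nonneg l
  -- the points `q`
  have hq : ∀ v : Eu ι, ‖v‖ ≤ 1 → ‖z + r • v - x‖ ≤ (b + 1) * r := by
    intro v hv
    calc ‖z + r • v - x‖ = ‖s • w + r • v‖ := by rw [hz]; congr 1; abel
      _ ≤ ‖s • w‖ + ‖r • v‖ := norm_add_le _ _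
      _ ≤ b * r + r := by
          rw [norm_smul, norm_smul, Real.norm_eq_abs, Real.norm_eq_abs, abs_of_nonneg hs0,
            abs_of_pos hr]
          have h1 : s * ‖w‖ ≤ 1 * (b * r) := mul_le_mul hs1 hxy (norm_nonneg _) (by norm_num)
          have h2 : r * ‖v‖ ≤ r * 1 := mul_le_mul_of_nonneg_left hv hr.le
          linarith
      _ = (b + 1) * r := by ring
  have hqM : ∀ v : Eu ι, ‖v‖ ≤ 1 → ρ (z + r • v) ∈ M := fun v hv =>
    g1 x hx _ ((hq v hv).trans hbη)
  have hqx : ∀ v : Eu ι, ‖v‖ ≤ 1 → ‖ρ (z + r • v) - x‖ ≤ L * (b + 1) * r := by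
    intro v hv
    have h1 := (g2 x hx (z + r • v) x ((hq v hv).trans hbη) (by simp [hη.le])).1
    rw [hM.id x hx] at h1
    calc ‖ρ (z + r • v) - x‖ ≤ L * ‖z + r • v - x‖ := h1
      _ ≤ L * ((b + 1) * r) := by
          apply mul_le_mul_of_nonneg_left (hq v hv)
          linarith
      _ = L * (b + 1) * r := by ring
  -- `‖F q - F x‖`
  have hFq1 : ∀ v : Eu ι, ‖v‖ ≤ 1 → ‖F (ρ (z + r • v)) - F x‖ ≤ D * t := by
    intro v hv
    have h1 := hFx _ (hqM v hv)
    have h2 := hFx x hx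
    have h3 := hqx v hv
    calc ‖F (ρ (z + r • v)) - F x‖ = ‖(F (ρ (z + r • v)) - ρ (z + r • v)) +
            (ρ (z + r • v) - x) - (F x - x)‖ := by congr 1; abel
      _ ≤ ‖(F (ρ (z + r • v)) - ρ (z + r • v)) + (ρ (z + r • v) - x)‖ + ‖F x - x‖ :=
          norm_sub_le _ _
      _ ≤ ‖F (ρ (z + r • v)) - ρ (z + r • v)‖ + ‖ρ (z + r • v) - x‖ + ‖F x - x‖ := by
          gcongr
          exact norm_add_le _ _
      _ ≤ t + L * (b + 1) * r + t := by linarith
      _ ≤ D * t := by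
          rw [hD]
          nlinarith
  have hFq2 : ∀ v : Eu ι, ‖v‖ ≤ 1 → ‖F (ρ (z + r • v)) - F x‖ ≤ 2 * R₁ * √l * r := by
    intro v hv
    have h3 : ‖ρ (z + r • v) - x‖ ≤ R₁ * r := (hqx v hv).trans (by gcongr)
    have h4 := hflat2 _ (hqM v hv) x hx h3 (by simp; positivity)
    have h5 := (abs_le.1 h4).2
    have h6 : ‖F (ρ (z + r • v)) - F x‖ ^ 2 ≤ (2 * R₁ * √l * r) ^ 2 := by
      have h7 : (2 * R₁ * √l * r) ^ 2 = 4 * l * (R₁ * r) ^ 2 := by
        rw [mul_pow, mul_pow, mul_pow, Real.sq_sqrt hl.le]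
        ring
      rw [h7]
      have h8 : ‖ρ (z + r • v) - x‖ ^ 2 ≤ (R₁ * r) ^ 2 := by
        apply pow_le_pow_left₀ (norm_nonneg _) h3
      have h9 : l * ‖ρ (z + r • v) - x‖ ^ 2 ≤ l * (R₁ * r) ^ 2 :=
        mul_le_mul_of_nonneg_left h8 hl.le
      have h10 : δ * l * (R₁ * r) ^ 2 ≤ 1 * l * (R₁ * r) ^ 2 := by gcongr
      nlinarith [mul_nonneg hl.le (sq_nonneg (R₁ * r))]
    exact le_of_sq_le_sq h6 (by positivity)
  have hFρ : ContDiff ℝ ∞ (fun y => F (ρ y)) := hF.comp hM.smooth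
  have hcont : Continuous (fun v : Eu ι => F (ρ (z + r • v))) :=
    hFρ.continuous.comp (continuous_const.add (continuous_id.const_smul r))
  -- the mollification
  have hΦ : ‖mol K (fun y => F (ρ y)) (r, z) - F x‖ ≤ D * t :=
    H66.norm_K_sub_le hK _ hcont (F x) (D * t) hDt.le hFq1
  have hu := (hMOL ι K (fun y => F (ρ y)) hK hFρ).2 r hr z w (F x)
  change Dmol ρ K F r z w = _ at hu
  set u := Dmol ρ K F r z w with hudef
  have hun : ‖u‖ ≤ 2 * H66.CK K * R₁ * √l * ‖w‖ := by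
    rw [hu, norm_smul]
    have h1 := H66.norm_int_le hK w (fun v => F (ρ (z + r • v)) - F x) (2 * R₁ * √l * r)
      (by positivity) hFq2
    have h2 : ‖-(1 / r)‖ = 1 / r := by
      rw [norm_neg, Real.norm_eq_abs, abs_of_pos (by positivity)]
    rw [h2]
    calc 1 / r * ‖∫ v, (fderiv ℝ K v) w • (F (ρ (z + r • v)) - F x)‖
        ≤ 1 / r * (H66.CK K * ‖w‖ * (2 * R₁ * √l * r)) := by
          apply mul_le_mul_of_nonneg_left h1 (by positivity)
      _ = 2 * H66.CK K * R₁ * √l * ‖w‖ := by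
          field_simp
  have hFxM : F x ∈ M := hFM hx
  set P := fderiv ℝ ρ (F x) with hP
  have hPu : ‖P u - u‖ ≤ 2 * H66.CK K * R₁ * √l * ‖w‖ * (L * D) * t := by
    have hsub : P u - u = -(1 / r) • ∫ v, (fderiv ℝ K v w) •
        (P (F (ρ (z + r • v)) - F x) - (F (ρ (z + r • v)) - F x)) := by
      have hint : Integrable (fun v => (fderiv ℝ K v w) • (F (ρ (z + r • v)) - F x)) :=
        H66.int_fdw hK w _ (hcont.sub continuous_const)
      have h1 : P (∫ v, (fderiv ℝ K v w) • (F (ρ (z + r • v)) - F x)) =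
          ∫ v, (fderiv ℝ K v w) • P (F (ρ (z + r • v)) - F x) := by
        rw [← ContinuousLinearMap.integral_comp_comm P hint]
        apply integral_congr_ae
        refine Filter.Eventually.of_forall (fun v => ?_)
        simp only [map_smul]
      have h2 : Integrable (fun v => (fderiv ℝ K v w) • P (F (ρ (z + r • v)) - F x)) :=
        H66.int_fdw hK w _ (P.continuous.comp (hcont.sub continuous_const))
      conv_lhs => rw [hu]
      rw [map_smul, h1, ← smul_sub, ← integral_sub h2 hint]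
      congr 1
      apply integral_congr_ae
      refine Filter.Eventually.of_forall (fun v => ?_)
      simp only [smul_sub]
    have hb2 : ∀ v : Eu ι, ‖v‖ ≤ 1 →
        ‖P (F (ρ (z + r • v)) - F x) - (F (ρ (z + r • v)) - F x)‖ ≤
          L * ((2 * R₁ * √l * r) * (D * t)) := by
      intro v hv
      have h1 := g5 (F x) hFxM (F (ρ (z + r • v))) (hFM (hqM v hv)) ((hFq1 v hv).trans hDη)
      rw [← norm_neg]
      calc ‖-(P (F (ρ (z + r • v)) - F x) - (F (ρ (z + r • v)) - F x))‖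
          = ‖F (ρ (z + r • v)) - F x - P (F (ρ (z + r • v)) - F x)‖ := by
            congr 1; abel
        _ ≤ L * ‖F (ρ (z + r • v)) - F x‖ ^ 2 := h1
        _ ≤ L * ((2 * R₁ * √l * r) * (D * t)) := by
            apply mul_le_mul_of_nonneg_left _ (by linarith)
            rw [sq]
            exact mul_le_mul (hFq2 v hv) (hFq1 v hv) (norm_nonneg _) (by positivity)
    have h3 := H66.norm_int_le hK w _ _ (by positivity) hb2
    rw [hsub, norm_smul]
    have h2 : ‖-(1 / r)‖ = 1 / r := by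
      rw [norm_neg, Real.norm_eq_abs, abs_of_pos (by positivity)]
    rw [h2]
    calc 1 / r * ‖∫ v, (fderiv ℝ K v w) •
        (P (F (ρ (z + r • v)) - F x) - (F (ρ (z + r • v)) - F x))‖
        ≤ 1 / r * (H66.CK K * ‖w‖ * (L * ((2 * R₁ * √l * r) * (D * t)))) := by
          apply mul_le_mul_of_nonneg_left h3 (by positivity)
      _ = 2 * H66.CK K * R₁ * √l * ‖w‖ * (L * D) * t := by
          field_simp
  have hdiff : ‖fderiv ℝ ρ (mol K (fun y => F (ρ y)) (r, z)) - P‖ ≤ L * (D * t) := by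
    have h1 := (g2 (F x) hFxM (mol K (fun y => F (ρ y)) (r, z)) (F x) (hΦ.trans hDη)
      (by simp [hη.le])).2
    exact h1.trans (mul_le_mul_of_nonneg_left hΦ (by linarith))
  calc ‖fderiv ℝ ρ (mol K (fun y => F (ρ y)) (r, z)) u - u‖
      = ‖(fderiv ℝ ρ (mol K (fun y => F (ρ y)) (r, z)) - P) u + (P u - u)‖ := by
        congr 1
        rw [sub_apply]
        abel
    _ ≤ ‖(fderiv ℝ ρ (mol K (fun y => F (ρ y)) (r, z)) - P) u‖ + ‖P u - u‖ := norm_add_le _ _
    _ ≤ L * (D * t) * (2 * H66.CK K * R₁ * √l * ‖w‖) +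
          2 * H66.CK K * R₁ * √l * ‖w‖ * (L * D) * t := by
        refine add_le_add ?_ hPu
        refine (ContinuousLinearMap.le_opNorm _ _).trans ?_
        exact mul_le_mul hdiff hun (norm_nonneg _) (by positivity)
    _ = (4 * H66.CK K * R₁ * L * D) * √l * ‖w‖ * t := by ring
    _ ≤ (4 * H66.CK K * R₁ * L * D + 1) * √l * ‖w‖ * t := by
        gcongr
        linarith

end Pool.Agent.W2helper44.CP
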