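import Pool.Agent.W2helper66.CP.Base

/-!
# Project CP, piece CLC: the main estimate from CLA and CLB
-/

set_option autoImplicit false

open Set Filter Topology MeasureTheory
open scoped ContDiff

noncomputable section

namespace Pool.Agent.W2helper44.CP

theorem p_CLC : P_CLC := by
  intro hA hB hGEO hMOL ι _ M ρ K hM hK b hb
  obtain ⟨RA, hRA, hA2⟩ := hA hGEO hMOL ι M ρ K hM hK b hb
  obtain ⟨RB, hRB, hB2⟩ := hB hGEO hMOL ι M ρ K hM hK b hb
  set R₁ := max (max RA RB) 2 with hR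
  have hR1 : 2 ≤ R₁ := le_max_right _ _
  obtain ⟨tA, A, htA, hA1, hA3⟩ := hA2 R₁ ((le_max_left _ _).trans (le_max_left _ _))
  obtain ⟨tB, A', htB, hB1, hB3⟩ := hB2 R₁ ((le_max_right _ _).trans (le_max_left _ _))
  refine ⟨min (min tA tB) (min (1 / (8 * A)) (1 / (6 * A'))),
    min (1 / (8 * A)) (1 / (2 * R₁ ^ 2)), by positivity, by positivity, ?_⟩
  set r₁ := min (min tA tB) (min (1 / (8 * A)) (1 / (6 * A'))) with hr₁
  set δ₁ := min (1 / (8 * A)) (1 / (2 * R₁ ^ 2)) with hδ₁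
  have hr1A : r₁ ≤ tA := (min_le_left _ _).trans (min_le_left _ _)
  have hr1B : r₁ ≤ tB := (min_le_left _ _).trans (min_le_right _ _)
  have hr1a : A * r₁ ≤ 1 / 8 := by
    have h : r₁ ≤ 1 / (8 * A) := (min_le_right _ _).trans (min_le_left _ _)
    rw [le_div_iff₀ (by positivity)] at h
    linarith
  have hr1b : A' * r₁ ≤ 1 / 6 := by
    have h : r₁ ≤ 1 / (6 * A') := (min_le_right _ _).trans (min_le_right _ _)
    rw [le_div_iff₀ (by positivity)] at h
    linarith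
  have hδa : A * δ₁ ≤ 1 / 8 := by
    have h : δ₁ ≤ 1 / (8 * A) := min_le_left _ _
    rw [le_div_iff₀ (by positivity)] at h
    linarith
  have hδb : δ₁ * R₁ ^ 2 ≤ 1 / 2 := by
    have h : δ₁ ≤ 1 / (2 * R₁ ^ 2) := min_le_right _ _
    rw [le_div_iff₀ (by positivity)] at h
    linarith
  have hr1pos : 0 < r₁ := by positivity
  have hδpos : 0 < δ₁ := by positivity
  have hδ1 : δ₁ ≤ 1 := by nlinarith
  clear_value r₁ δ₁ R₁
  intro F hF hFM hflat hFx c hc hlip r hr hrr x hx y hy hxy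
  rcases eq_or_ne x y with rfl | hne
  · simp
  have hw0 : 0 < ‖y - x‖ := norm_pos_iff.2 (sub_ne_zero.2 hne.symm)
  have hyx : ‖y - x‖ ≤ b * r := by rw [norm_sub_rev]; exact hxy
  obtain ⟨l, hl, hfl⟩ := hflat x hx (R₁ * r) (by positivity)
  have hfa : FlatAt M δ₁ l (R₁ * r) F x := ⟨hl, hfl⟩
  set w := y - x with hw
  set p := ρ (x + (r / ‖w‖) • w) with hp
  obtain ⟨hpM, hp1, hp2, -⟩ := hA3 F hF hFM r hr (hrr.trans hr1A) x hx y hy hw0 hyx l δ₁ hδpos.le
    hfa 0 le_rfl zero_le_one p rfl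
  set f := F p - F x with hf
  have hsl : 0 < √l := Real.sqrt_pos.2 hl
  have hsq : √l ^ 2 = l := Real.sq_sqrt hl.le
  -- the norm of `f`
  have hfn : ‖f‖ ≤ 3 / 2 * √l * r := by
    have h1 := (abs_le.1 (hfl p hpM x hx (hp2.trans (by gcongr; linarith))
      (by simp; positivity))).2
    have h2 : ‖f‖ ^ 2 ≤ (3 / 2 * √l * r) ^ 2 := by
      have h7 : (3 / 2 * √l * r) ^ 2 = 9 / 4 * (l * r ^ 2) := by
        rw [mul_pow, mul_pow, hsq]
        ring
      rw [h7]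
      have h8 : ‖p - x‖ ^ 2 ≤ (9 / 8 * r) ^ 2 := pow_le_pow_left₀ (norm_nonneg _) hp2 2
      have h9 : l * ‖p - x‖ ^ 2 ≤ l * (9 / 8 * r) ^ 2 := mul_le_mul_of_nonneg_left h8 hl.le
      have h10 : (δ₁ * R₁ ^ 2) * (l * r ^ 2) ≤ 1 / 2 * (l * r ^ 2) :=
        mul_le_mul_of_nonneg_right hδb (by positivity)
      have h11 : δ₁ * l * (R₁ * r) ^ 2 = (δ₁ * R₁ ^ 2) * (l * r ^ 2) := by ring
      have h12 : l * (9 / 8 * r) ^ 2 = 81 / 64 * (l * r ^ 2) := by ring
      have h13 : 0 ≤ l * r ^ 2 := by positivity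
      rw [h11] at h1
      rw [h12] at h9
      linarith only [h1, h9, h10, h13]
    exact le_of_sq_le_sq h2 (by positivity)
  -- the function `g`
  have hΦs : ContDiff ℝ ∞ (fun u : Eu ι => mol K (fun y => F (ρ y)) (r, u)) :=
    (hMOL ι K (fun y => F (ρ y)) hK (hF.comp hM.smooth)).1.comp
      (contDiff_const.prodMk contDiff_id)
  let g : ℝ → ℝ := fun s => inner ℝ (psi ρ K F r (x + s • w)) f
  let g' : ℝ → ℝ := fun s => inner ℝ (fderiv ℝ ρ (mol K (fun y => F (ρ y)) (r, x + s • w))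
      (Dmol ρ K F r (x + s • w) w)) f
  have hg : ∀ s, HasDerivAt g (g' s) s := by
    intro s
    have h1 : HasDerivAt (fun s : ℝ => x + s • w) w s := by
      have := ((hasDerivAt_id s).smul_const w).const_add x
      simpa using this
    have h2 : HasFDerivAt (fun u : Eu ι => mol K (fun y => F (ρ y)) (r, u))
        (Dmol ρ K F r (x + s • w)) (x + s • w) :=
      (hΦs.differentiable (by simp) _).hasFDerivAt
    have h3 := h2.comp_hasDerivAt s h1
    have h4 : HasFDerivAt ρ (fderiv ℝ ρ (mol K (fun y => F (ρ y)) (r, x + s • w)))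
        (mol K (fun y => F (ρ y)) (r, x + s • w)) :=
      (hM.smooth.differentiable (by simp) _).hasFDerivAt
    have h5 := h4.comp_hasDerivAt s h3
    have h6 := h5.inner ℝ (hasDerivAt_const s f)
    simp only [inner_zero_right, zero_add] at h6
    exact h6
  have hgl : ∀ s, 0 ≤ s → s ≤ 1 → l * r * ‖w‖ / 2 ≤ g' s := by
    intro s hs0 hs1
    obtain ⟨-, -, -, h1⟩ := hA3 F hF hFM r hr (hrr.trans hr1A) x hx y hy hw0 hyx l δ₁ hδpos.le
      hfa s hs0 hs1 p rfl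
    have h2 := hB3 F hF hFM r₁ hr1pos hr1B hFx r hr hrr x hx y hy hyx l δ₁ hδpos.le hδ1 hfa s
      hs0 hs1
    rw [← hw] at h1 h2
    set u := Dmol ρ K F r (x + s • w) w with hu
    have h3 : g' s = inner ℝ (fderiv ℝ ρ (mol K (fun y => F (ρ y)) (r, x + s • w)) u - u) f +
        inner ℝ u f := by
      rw [inner_sub_left]
      simp only [g']
      ring
    have h4 := (abs_le.1 (abs_real_inner_le_norm
      (fderiv ℝ ρ (mol K (fun y => F (ρ y)) (r, x + s • w)) u - u) f)).1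
    have h5 : ‖fderiv ℝ ρ (mol K (fun y => F (ρ y)) (r, x + s • w)) u - u‖ * ‖f‖ ≤
        (A' * √l * ‖w‖ * r₁) * (3 / 2 * √l * r) :=
      mul_le_mul h2 hfn (norm_nonneg _) (by positivity)
    have h6 : (A' * √l * ‖w‖ * r₁) * (3 / 2 * √l * r) = (3 / 2 * (A' * r₁)) * (l * r * ‖w‖) := by
      calc (A' * √l * ‖w‖ * r₁) * (3 / 2 * √l * r) =
          (3 / 2 * (A' * r₁)) * (√l ^ 2 * r * ‖w‖) := by ring
        _ = _ := by rw [hsq]
    have hpos : 0 ≤ l * r * ‖w‖ := by positivity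
    have h7 : (3 / 2 * (A' * r₁)) * (l * r * ‖w‖) ≤ 1 / 4 * (l * r * ‖w‖) :=
      mul_le_mul_of_nonneg_right (by linarith) hpos
    have h8 : A * (r + δ₁) * l * r * ‖w‖ ≤ 1 / 4 * (l * r * ‖w‖) := by
      have h9 : A * (r + δ₁) ≤ 1 / 4 := by
        have : A * r ≤ A * r₁ := mul_le_mul_of_nonneg_left hrr (by linarith)
        linarith
      calc A * (r + δ₁) * l * r * ‖w‖ = (A * (r + δ₁)) * (l * r * ‖w‖) := by ring
        _ ≤ _ := mul_le_mul_of_nonneg_right h9 hpos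
    have h10 := (abs_le.1 h1).1
    rw [h3]
    linarith
  have hg10 : l * r * ‖w‖ / 2 ≤ g 1 - g 0 := by
    obtain ⟨s, hs, hs2⟩ := exists_hasDerivAt_eq_slope g g' (zero_lt_one)
      (fun s _ => (hg s).continuousAt.continuousWithinAt) (fun s _ => hg s)
    have := hgl s hs.1.le hs.2.le
    rw [hs2] at this
    simpa using this
  have hg2 : g 1 - g 0 ≤ (3 / 2 * √l * r) * ‖psi ρ K F r x - psi ρ K F r y‖ := by
    have h1 : g 1 - g 0 = inner ℝ (psi ρ K F r y - psi ρ K F r x) f := by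
      simp only [g]
      rw [zero_smul, one_smul, add_zero, hw, add_sub_cancel, inner_sub_left]
    rw [h1]
    calc inner ℝ (psi ρ K F r y - psi ρ K F r x) f
        ≤ ‖psi ρ K F r y - psi ρ K F r x‖ * ‖f‖ := real_inner_le_norm _ _
      _ ≤ ‖psi ρ K F r y - psi ρ K F r x‖ * (3 / 2 * √l * r) := by gcongr
      _ = (3 / 2 * √l * r) * ‖psi ρ K F r x - psi ρ K F r y‖ := by
          rw [norm_sub_rev]; ring
  -- `√l ≥ (7/12) c`
  have hcl : 7 / 12 * c ≤ √l := by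
    have h1 := hlip p hpM x hx
    have h2 : c * (7 / 8 * r) ≤ 3 / 2 * √l * r := by
      calc c * (7 / 8 * r) ≤ c * ‖p - x‖ := by gcongr
        _ ≤ ‖F p - F x‖ := h1
        _ ≤ 3 / 2 * √l * r := hfn
    have h3 : (7 / 12 * c) * r ≤ √l * r := by linarith
    exact le_of_mul_le_mul_right h3 hr
  have hfin : √l * ‖w‖ / 3 ≤ ‖psi ρ K F r x - psi ρ K F r y‖ := by
    have h1 : (3 / 2 * √l * r) * (√l * ‖w‖ / 3) ≤
        (3 / 2 * √l * r) * ‖psi ρ K F r x - psi ρ K F r y‖ := by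
      calc (3 / 2 * √l * r) * (√l * ‖w‖ / 3) = √l ^ 2 * r * ‖w‖ / 2 := by ring
        _ = l * r * ‖w‖ / 2 := by rw [hsq]
        _ ≤ _ := hg10.trans hg2
    exact le_of_mul_le_mul_left h1 (by positivity)
  calc c / 8 * ‖x - y‖ = c / 8 * ‖w‖ := by rw [hw, norm_sub_rev]
    _ ≤ √l * ‖w‖ / 3 := by nlinarith [mul_le_mul_of_nonneg_right hcl hw0.le, mul_pos hc hw0]
    _ ≤ _ := hfin

end Pool.Agent.W2helper44.CP
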