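import Pool.Agent.W2helper44.CP.Stm

/-!
# Project CP: common lemmas for the main estimate
-/

set_option autoImplicit false

open Set Filter Topology MeasureTheory
open scoped ContDiff

noncomputable section

namespace Pool.Agent.W2helper44.CP.H66

variable {ι : Type} [Fintype ι] {K : Eu ι → ℝ}

theorem ker_cs (hK : Ker K) : HasCompactSupport K := by
  apply HasCompactSupport.of_support_subset_isCompact (isCompact_closedBall (0 : Eu ι) 1)
  intro v hv
  rw [Metric.mem_closedBall, dist_zero_right]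
  by_contra hcon
  push Not at hcon
  exact hv (hK.supp v hcon.le)

theorem ker_cont (hK : Ker K) : Continuous K := hK.smooth.continuous

theorem fd_cont (hK : Ker K) : Continuous (fderiv ℝ K) :=
  hK.smooth.continuous_fderiv (by simp)

theorem fd_cs (hK : Ker K) : HasCompactSupport (fderiv ℝ K) := (ker_cs hK).fderiv (𝕜 := ℝ)

theorem fd_zero (hK : Ker K) (v : Eu ι) (hv : 1 < ‖v‖) : fderiv ℝ K v = 0 := by
  have h : K =ᶠ[𝓝 v] fun _ => (0 : ℝ) := by
    have h1 : ∀ᶠ u : Eu ι in 𝓝 v, 1 < ‖u‖ :=
      (continuous_norm.tendsto v).eventually (lt_mem_nhds hv)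
    filter_upwards [h1] with u hu
    exact hK.supp u hu.le
  rw [h.fderiv_eq]
  simp

/-- the integral of `‖DK‖` -/
def CK (K : Eu ι → ℝ) : ℝ := ∫ v, ‖fderiv ℝ K v‖

theorem CK_nonneg (K : Eu ι → ℝ) : 0 ≤ CK K := integral_nonneg (fun _ => norm_nonneg _)

theorem fd_int (hK : Ker K) : Integrable (fun v => ‖fderiv ℝ K v‖) := by
  apply Continuous.integrable_of_hasCompactSupport
  · exact (fd_cont hK).norm
  · exact (fd_cs hK).norm

theorem fdw_cont (hK : Ker K) (w : Eu ι) : Continuous (fun v => fderiv ℝ K v w) :=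
  (fd_cont hK).clm_apply continuous_const

theorem fdw_cs (hK : Ker K) (w : Eu ι) : HasCompactSupport (fun v => fderiv ℝ K v w) :=
  (fd_cs hK).comp_left (g := fun A : Eu ι →L[ℝ] ℝ => A w) (by simp)

variable {E : Type} [NormedAddCommGroup E] [NormedSpace ℝ E]

theorem int_fdw (hK : Ker K) (w : Eu ι) (G : Eu ι → E) (hG : Continuous G) :
    Integrable (fun v => (fderiv ℝ K v w) • G v) := by
  apply Continuous.integrable_of_hasCompactSupport
  · exact (fdw_cont hK w).smul hG
  · exact (fdw_cs hK w).smul_right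

theorem norm_int_le (hK : Ker K) (w : Eu ι) (G : Eu ι → E) (B : ℝ) (_hB0 : 0 ≤ B)
    (hB : ∀ v, ‖v‖ ≤ 1 → ‖G v‖ ≤ B) :
    ‖∫ v, (fderiv ℝ K v w) • G v‖ ≤ CK K * ‖w‖ * B := by
  have h1 : ‖∫ v, (fderiv ℝ K v w) • G v‖ ≤ ∫ v, ‖fderiv ℝ K v‖ * (‖w‖ * B) := by
    apply norm_integral_le_of_norm_le ((fd_int hK).mul_const _)
    refine Filter.Eventually.of_forall (fun v => ?_)
    rw [norm_smul]
    by_cases hv : ‖v‖ ≤ 1
    · calc ‖fderiv ℝ K v w‖ * ‖G v‖ ≤ (‖fderiv ℝ K v‖ * ‖w‖) * B := by
            apply mul_le_mul (ContinuousLinearMap.le_opNorm _ _) (hB v hv) (norm_nonneg _)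
            positivity
        _ = ‖fderiv ℝ K v‖ * (‖w‖ * B) := by ring
    · push Not at hv
      rw [fd_zero hK v hv]
      simp
  rw [integral_mul_const] at h1
  calc ‖∫ v, (fderiv ℝ K v w) • G v‖ ≤ (∫ v, ‖fderiv ℝ K v‖) * (‖w‖ * B) := h1
    _ = CK K * ‖w‖ * B := by rw [CK]; ring

theorem int_K (hK : Ker K) (G : Eu ι → E) (hG : Continuous G) :
    Integrable (fun v => K v • G v) := by
  apply Continuous.integrable_of_hasCompactSupport
  · exact (ker_cont hK).smul hG
  · exact (ker_cs hK).smul_right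

theorem int_K_const [CompleteSpace E] (hK : Ker K) (c : E) : ∫ v, K v • c = c := by
  rw [integral_smul_const, hK.int, one_smul]

theorem norm_K_sub_le [CompleteSpace E] (hK : Ker K) (G : Eu ι → E) (hG : Continuous G) (c : E)
    (B : ℝ) (_hB0 : 0 ≤ B) (hB : ∀ v, ‖v‖ ≤ 1 → ‖G v - c‖ ≤ B) :
    ‖(∫ v, K v • G v) - c‖ ≤ B := by
  have h1 : (∫ v, K v • G v) - c = ∫ v, K v • (G v - c) := by
    conv_lhs => rw [← int_K_const hK c]
    rw [← integral_sub (int_K hK G hG) (int_K hK _ continuous_const)]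
    apply integral_congr_ae
    refine Filter.Eventually.of_forall (fun v => ?_)
    simp only [smul_sub]
  rw [h1]
  have hKi : Integrable K := by
    have := (ker_cont hK).integrable_of_hasCompactSupport (μ := volume) (ker_cs hK)
    exact this
  have h2 : ‖∫ v, K v • (G v - c)‖ ≤ ∫ v, K v * B := by
    apply norm_integral_le_of_norm_le (hKi.mul_const _)
    refine Filter.Eventually.of_forall (fun v => ?_)
    rw [norm_smul, Real.norm_eq_abs, abs_of_nonneg (hK.nonneg v)]
    by_cases hv : ‖v‖ ≤ 1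
    · exact mul_le_mul_of_nonneg_left (hB v hv) (hK.nonneg v)
    · push Not at hv
      rw [hK.supp v hv.le]
      simp
  rw [integral_mul_const, hK.int, one_mul] at h2
  exact h2

/-- the derivative of the mollification of a linear map -/
theorem mol_linear (hK : Ker K) (T : Eu ι →L[ℝ] Eu ι) (r : ℝ) (z w : Eu ι) :
    fderiv ℝ (fun x => mol K T (r, x)) z w = T w := by
  have h1 : (fun x => mol K T (r, x)) = fun x => T x + ∫ v, K v • T (r • v) := by
    funext x
    simp only [mol]
    have h2 : ∀ v, K v • T (x + r • v) = K v • T x + K v • T (r • v) := by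
      intro v
      rw [map_add, smul_add]
    rw [integral_congr_ae (Filter.Eventually.of_forall h2), integral_add, int_K_const hK]
    · exact int_K hK _ continuous_const
    · exact int_K hK _ (T.continuous.comp (continuous_id.const_smul r))
  rw [h1, fderiv_add_const, ContinuousLinearMap.fderiv]

end Pool.Agent.W2helper44.CP.H66
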